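import Pool.Agent.KDT.StmtsM

set_option autoImplicit false

/-! # KDT, row EMB: `k`-vectors over `U`. -/

namespace Pool.Agent.KDT.H5

open Polynomial Pool.Agent.KDT.Z

section

variable {k U : Type} [Field k] [Field U] [Algebra k U]

theorem emb_apply (t : Fin 4 → k) (i : Fin 4) : emb U t i = algebraMap k U (t i) := rfl

theorem rr_emb (q t : Fin 4 → k) : rr (emb U q) (emb U t) = algebraMap k U (rr q t) := by
  simp only [rr, emb_apply, map_add, map_mul, map_pow, map_sub]

theorem ro_emb (q t : Fin 4 → k) : ro (emb U q) (emb U t) = algebraMap k U (ro q t) := by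
  simp only [ro, emb_apply, map_mul, map_sub]

theorem mu_emb (q t : Fin 4 → k) : mu (emb U q) (emb U t) = algebraMap k U (mu q t) := by
  simp only [mu, emb_apply, map_add, map_mul, map_sub]

theorem l3_emb (q t : Fin 4 → k) : l3 (emb U q) (emb U t) = algebraMap k U (l3 q t) := by
  simp only [l3, rr_emb, ro_emb, map_div₀]

theorem l2_emb (q t : Fin 4 → k) : l2 (emb U q) (emb U t) = algebraMap k U (l2 q t) := by
  simp only [l2, rr_emb, ro_emb, mu_emb, emb_apply, map_div₀, map_sub, map_mul]

theorem l1_emb (q t : Fin 4 → k) : l1 (emb U q) (emb U t) = algebraMap k U (l1 q t) := by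
  simp only [l1, rr_emb, ro_emb, mu_emb, emb_apply, map_div₀, map_sub, map_mul, map_add]

theorem l0_emb (q t : Fin 4 → k) : l0 (emb U q) (emb U t) = algebraMap k U (l0 q t) := by
  simp only [l0, rr_emb, mu_emb, emb_apply, map_div₀, map_mul, map_add]

theorem cs_emb (q t : Fin 4 → k) : cs (emb U q) (emb U t) = algebraMap k U (cs q t) := by
  simp only [cs, l3_emb, l2_emb, emb_apply, map_div₀, map_mul, map_sub, map_pow, map_neg,
    map_one, map_ofNat]

theorem cp_emb (f4 : k) (q t : Fin 4 → k) :
    cp (algebraMap k U f4) (emb U q) (emb U t) = algebraMap k U (cp f4 q t) := by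
  simp only [cp, cs_emb, l3_emb, l2_emb, l1_emb, emb_apply, map_div₀, map_mul, map_sub, map_pow,
    map_add, map_ofNat]

theorem cmp_emb (f4 : k) (q t : Fin 4 → k) :
    cmp (algebraMap k U f4) (emb U q) (emb U t) = emb U (cmp f4 q t) := by
  funext i
  fin_cases i
  · exact cs_emb q t
  · exact cp_emb f4 q t
  · change l3 (emb U q) (emb U t) * cs (emb U q) (emb U t) *
        cp (algebraMap k U f4) (emb U q) (emb U t) +
      l2 (emb U q) (emb U t) * cp (algebraMap k U f4) (emb U q) (emb U t) -
      l0 (emb U q) (emb U t) =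
      algebraMap k U (l3 q t * cs q t * cp f4 q t + l2 q t * cp f4 q t - l0 q t)
    rw [l3_emb, cs_emb, cp_emb, l2_emb, l0_emb]
    simp only [map_add, map_mul, map_sub]
  · change -(l3 (emb U q) (emb U t) * (cs (emb U q) (emb U t) ^ 2 -
        cp (algebraMap k U f4) (emb U q) (emb U t)) +
      l2 (emb U q) (emb U t) * cs (emb U q) (emb U t) + l1 (emb U q) (emb U t)) =
      algebraMap k U (-(l3 q t * (cs q t ^ 2 - cp f4 q t) + l2 q t * cs q t + l1 q t))
    rw [l3_emb, cs_emb, cp_emb, l2_emb, l1_emb]
    simp only [map_add, map_mul, map_sub, map_neg, map_pow]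

theorem pA_emb (t : Fin 4 → k) : pA (emb U t) = (pA t).map (algebraMap k U) := by
  simp only [pA, emb_apply, Polynomial.map_add, Polynomial.map_sub, Polynomial.map_pow,
    Polynomial.map_mul, Polynomial.map_X, Polynomial.map_C]

theorem pB_emb (t : Fin 4 → k) : pB (emb U t) = (pB t).map (algebraMap k U) := by
  simp only [pB, emb_apply, Polynomial.map_add, Polynomial.map_mul, Polynomial.map_X,
    Polynomial.map_C]

end

theorem emb_row : EmbStatement := by
  intro k U _ _ _ f g hg q t
  refine ⟨rr_emb q t, ro_emb q t, fun f4 => cmp_emb f4 q t, ?_, ?_, ?_, ?_⟩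
  · unfold On
    rw [pA_emb, pB_emb, hg, ← Polynomial.map_pow, ← Polynomial.map_sub, Polynomial.map_dvd_map']
  · intro h
    funext i
    exact (algebraMap k U).injective (congrFun h i)
  · funext i
    fin_cases i
    · rfl
    · rfl
    · change -(algebraMap k U (t 2)) = algebraMap k U (-t 2)
      rw [map_neg]
    · change -(algebraMap k U (t 3)) = algebraMap k U (-t 3)
      rw [map_neg]
  · intro h
    unfold On at h ⊢
    have h1 : pA (ngv t) = pA t := rfl
    have h2 : pB (ngv t) = - pB t := by
      change C (-t 3) * X + C (-t 2) = -(C (t 3) * X + C (t 2))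
      rw [C_neg, C_neg]
      ring
    rw [h1, h2, neg_sq]
    exact h

end Pool.Agent.KDT.H5
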