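import Pool.Agent.KDT.StmtsJ
import Pool.Agent.Helper21_SZT.MII

set_option autoImplicit false

/-! # KDT, row JGC: sums of points and of Mumford vectors in the class group. -/

namespace Pool.Agent.KDT.H5

open Polynomial H58Q Pool.Agent.SZT Pool.Agent.KDT.Z

section

variable {F : Type} [Field F] (f : F[X]) [Fact (Odd f.natDegree)] [IsDedekindDomain (Q F f)]

theorem mi_mem (A B : F[X]) : MI f A B ∈ nonZeroDivisors (Ideal (Q F f)) := by
  rw [mem_nonZeroDivisors_iff_ne_zero]
  intro h
  have h1 : (⟨-B, 1⟩ : Q F f) ∈ MI f A B := Ideal.subset_span (by simp)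
  rw [h, Submodule.zero_eq_bot, Ideal.mem_bot] at h1
  have h2 : (1 : F[X]) = 0 := congrArg (fun z : Q F f => z.2) h1
  exact one_ne_zero h2

theorem clI_mul {I J : Ideal (Q F f)} (hI : I ∈ nonZeroDivisors (Ideal (Q F f)))
    (hJ : J ∈ nonZeroDivisors (Ideal (Q F f))) : clI f (I * J) = clI f I + clI f J := by
  unfold clI
  rw [dif_pos hI, dif_pos hJ, dif_pos (mul_mem hI hJ), ← ofMul_mul, ← map_mul]
  rfl

theorem clI_span {a : Q F f} (ha : a ≠ 0) : clI f (Ideal.span {a}) = 0 := by
  have h1 : Ideal.span {a} ∈ nonZeroDivisors (Ideal (Q F f)) := by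
    rw [mem_nonZeroDivisors_iff_ne_zero]
    intro h
    rw [Submodule.zero_eq_bot, Ideal.span_singleton_eq_bot] at h
    exact ha h
  unfold clI
  rw [dif_pos h1]
  have h2 : ClassGroup.mk0 (⟨Ideal.span {a}, h1⟩ : nonZeroDivisors (Ideal (Q F f))) = 1 := by
    rw [ClassGroup.mk0_eq_one_iff]
    exact ⟨⟨a, rfl⟩⟩
  rw [h2]
  rfl

theorem clI_neg [CharZero F] (hf : Squarefree f) {A B : F[X]} (hA : A ≠ 0)
    (h : A ∣ B ^ 2 - f) : clI f (MI f A (-B)) = - clI f (MI f A B) := by
  have h1 := Pool.Agent.SZT.H21.mii F f A B (by norm_num) hf h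
  have h2 := clI_mul f (mi_mem f A B) (mi_mem f A (-B))
  rw [h1, clI_span] at h2
  · exact eq_neg_of_add_eq_zero_right h2.symm
  · intro h3
    exact hA (congrArg (fun z : Q F f => z.1) h3)

end

theorem dvd_sub_C_eval {F : Type} [Field F] (a : F) (L : F[X]) :
    (X - C a) ∣ L - C (L.eval a) := by
  rw [dvd_iff_isRoot, IsRoot.def]
  simp

theorem jgc (hIML : ImlStatement) (hCMA : CmaStatement) (hPRO : ProStatement) :
    JgcStatement := by
  intro F _ _ f _ _ hfm hf5 hsf
  obtain ⟨iml1, iml2, iml3⟩ := hIML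
  have h2 : (2 : F) ≠ 0 := by norm_num
  have hprin : ∀ (A A' L : F[X]) (c : F), c ≠ 0 → L ^ 2 - f = C c * (A * A') →
      clI f (MI f A L) = - clI f (MI f A' L) := by
    intro A A' L c hc h
    have h1 := iml1 F f L A A' c h2 hsf hc h
    have h3 := clI_mul f (mi_mem f A L) (mi_mem f A' L)
    rw [h1, clI_span] at h3
    · exact eq_neg_of_add_eq_zero_left h3.symm
    · intro h4
      exact one_ne_zero (congrArg (fun z : Q F f => z.2) h4)
  refine ⟨?_, ?_, ?_⟩
  · intro q z w hq hA hz hw
    have hzd : (X - C z.a) ∣ (C z.b) ^ 2 - f := by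
      rw [dvd_iff_isRoot, IsRoot.def]
      simp [z.on]
    have hwd : (X - C w.a) ∣ (C w.b) ^ 2 - f := by
      rw [dvd_iff_isRoot, IsRoot.def]
      simp [w.on]
    have hzB : (X - C z.a) ∣ pB q - C z.b := by
      rw [← hz]
      exact dvd_sub_C_eval _ _
    have hwB : (X - C w.a) ∣ pB q - C w.b := by
      rw [← hw]
      exact dvd_sub_C_eval _ _
    have key : clI f (MI f (pA q) (pB q)) =
        clI f (MI f (X - C z.a) (C z.b) * MI f (X - C w.a) (C w.b)) := by
      by_cases hzw : z.a = w.a
      · have hb : z.b = w.b := by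
          rw [← hz, ← hw, hzw]
        have hb0 : z.b ≠ 0 := by
          intro hb0
          rw [hb0] at hz
          have h3 : (X - C z.a) ∣ pB q := by
            rw [dvd_iff_isRoot, IsRoot.def]
            exact hz
          have h4 : (X - C z.a) * (X - C z.a) ∣ pB q ^ 2 - f := by
            have h5 := hq
            unfold On at h5
            rw [hA, ← hzw] at h5
            exact h5
          have h5 : (X - C z.a) * (X - C z.a) ∣ pB q ^ 2 := by
            rw [sq]
            exact mul_dvd_mul h3 h3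
          have h6 : (X - C z.a) * (X - C z.a) ∣ f := by
            have h7 := dvd_sub h5 h4
            rwa [sub_sub_cancel] at h7
          have h7 := hsf _ h6
          exact (Polynomial.not_isUnit_X_sub_C z.a) h7
        have hmum : Mum f (X - C z.a) (C z.b) :=
          ⟨monic_X_sub_C _, by
            rw [degree_X_sub_C]
            exact lt_of_le_of_lt degree_C_le (by norm_num), hzd⟩
        obtain ⟨B'', hm, hd, -, hprod⟩ := hPRO F f (X - C z.a) (C z.b) (X - C z.a) (C z.b) h2 hmum
          hmum (natDegree_X_sub_C_le _) (natDegree_X_sub_C_le _) (by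
            rintro ⟨-, h3⟩
            rw [← C_neg, C_inj] at h3
            apply hb0
            have h4 : 2 * z.b = 0 := by
              linear_combination h3
            exact (mul_eq_zero.1 h4).resolve_left h2)
        rw [hA, ← hzw, ← hb, hprod]
        rw [iml3 F f ((X - C z.a) * (X - C z.a)) B'' (pB q)]
        have h3 : (X - C z.a) * (X - C z.a) ∣ (pB q - B'') * (pB q + B'') := by
          have h4 : (X - C z.a) * (X - C z.a) ∣ pB q ^ 2 - f := by
            have h5 := hq
            unfold On at h5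
            rw [hA, ← hzw] at h5
            exact h5
          have h5 := dvd_sub h4 hm.dvd
          have h6 : (pB q - B'') * (pB q + B'') = pB q ^ 2 - f - (B'' ^ 2 - f) := by ring
          rw [h6]
          exact h5
        have hev : B''.eval z.a = z.b := by
          obtain ⟨D, hD⟩ := hd
          have h4 := congrArg (Polynomial.eval z.a) hD
          simp at h4
          linear_combination h4
        have hcop : IsCoprime ((X - C z.a) * (X - C z.a)) (pB q + B'') := by
          have h4 : IsCoprime (X - C z.a) (pB q + B'') := by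
            rw [Irreducible.coprime_iff_not_dvd (irreducible_X_sub_C _), dvd_iff_isRoot,
              IsRoot.def, eval_add, hz, hev]
            intro h4
            apply hb0
            have h5 : 2 * z.b = 0 := by
              linear_combination h4
            exact (mul_eq_zero.1 h5).resolve_left h2
          exact h4.mul_left h4
        exact hcop.dvd_of_dvd_mul_right h3
      · rw [iml2 F f _ _ _ _ (pB q) (isCoprime_X_sub_C_of_isUnit_sub
          (isUnit_iff_ne_zero.2 (sub_ne_zero.2 hzw))) hzd hwd hzB hwB, hA]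
    unfold clC thC
    rw [key, clI_mul f (mi_mem f _ _) (mi_mem f _ _)]
  · intro q t hq ht hr hρ
    obtain ⟨hLq, hLt, hcop, h3, -⟩ := hCMA.2 F f q t hfm hf5 hq ht hr
    obtain ⟨h4, h5, h6⟩ := h3 hρ
    refine ⟨h6, ?_⟩
    have hl3 : l3 q t ^ 2 ≠ 0 := pow_ne_zero 2 (div_ne_zero hρ hr)
    have hA0 : pA (cmp (f.coeff 4) q t) ≠ 0 := by
      intro h7
      unfold On at h6
      have h8 : (pA (cmp (f.coeff 4) q t)).coeff 2 = 0 := by rw [h7, coeff_zero]
      unfold pA at h8
      simp [coeff_X, coeff_C] at h8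
    unfold clC
    rw [← clI_mul f (mi_mem f _ _) (mi_mem f _ _),
      iml2 F f (pA q) (pB q) (pA t) (pB t) (lin q t) hcop hq ht hLq hLt,
      hprin (pA q * pA t) (pA (cmp (f.coeff 4) q t)) (lin q t) (l3 q t ^ 2) hl3 h4,
      iml3 F f (pA (cmp (f.coeff 4) q t)) (-pB (cmp (f.coeff 4) q t)) (lin q t) (by
        rw [sub_neg_eq_add, add_comm]; exact h5),
      clI_neg f hsf hA0 h6, neg_neg]
  · intro q t hq ht hr hρ
    obtain ⟨hLq, hLt, hcop, -, h3⟩ := hCMA.2 F f q t hfm hf5 hq ht hr
    obtain ⟨a, ha⟩ := h3 hρ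
    right
    have hroot : (lin q t).eval a ^ 2 = f.eval a := by
      have h4 := congrArg (Polynomial.eval a) ha
      simp at h4
      linear_combination -h4
    refine ⟨⟨a, -(lin q t).eval a, by rw [neg_sq]; exact hroot⟩, ?_⟩
    unfold clC thC
    have h5 : (X - C a) ∣ (C ((lin q t).eval a)) ^ 2 - f := by
      rw [dvd_iff_isRoot, IsRoot.def]
      simp [hroot]
    rw [← clI_mul f (mi_mem f _ _) (mi_mem f _ _),
      iml2 F f (pA q) (pB q) (pA t) (pB t) (lin q t) hcop hq ht hLq hLt,
      hprin (pA q * pA t) (X - C a) (lin q t) (-1) (by norm_num) (by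
        rw [C_neg, C_1]; linear_combination -ha),
      iml3 F f (X - C a) (C ((lin q t).eval a)) (lin q t) (dvd_sub_C_eval _ _)]
    change _ = clI f (MI f (X - C a) (C (-(lin q t).eval a)))
    rw [C_neg, clI_neg f hsf (X_sub_C_ne_zero a) h5]

end Pool.Agent.KDT.H5
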