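import Pool.Agent.KDT.StmtsK

set_option autoImplicit false

/-! Row LFB of the squad KDT: adapted coordinates at a node. -/

namespace Pool.Agent.KDT.H5

open Polynomial NumberField H58Q Pool.Agent.SZT Pool.Agent.KDT

theorem FF_add_int (x : ℝ) (m : ℤ) : FF (x + m) = FF x := by
  unfold FF
  rw [Int.fract_add_intCast]

theorem FF_nonneg (x : ℝ) : 0 ≤ FF x := by
  unfold FF
  have h1 := Int.fract_nonneg x
  have h2 := Int.fract_lt_one x
  exact mul_nonneg h1 (by linarith)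

theorem FF_le (x : ℝ) : FF x ≤ 1 / 4 := by
  unfold FF
  nlinarith [sq_nonneg (Int.fract x - 1 / 2)]

theorem lfb (hLVD : LvdStatement) (hEOM : EomStatement) (hSHF : ShfStatement)
    (hNOD : SZT.B.NodStmt) (hTRO : TroStatement) : LfbStatement := by
  intro Ω L _ _ _ _ _ j w f θ s hw hnode hsq h2 hmon hdeg hsqf A B U W M hgood htau hgen l
  have hjinj : Function.Injective j := j.injective
  obtain ⟨⟨hη0, hη1, -⟩, -⟩ := hNOD L (f.map j) _ hnode
  set η := SZT.B.eta (fun k => j (θ k)) with hη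
  have hηpos : 0 < ‖η‖ := norm_pos_iff.2 hη0
  set q := Real.log ‖η‖ with hq
  have hqneg : q < 0 := Real.log_neg hηpos hη1
  have hf : f = ∏ i, (X - C (θ i)) := by
    apply Polynomial.map_injective j hjinj
    rw [hnode.fac, Polynomial.map_prod]
    simp
  have hroot : ∀ i, f.IsRoot (θ i) := by
    intro i
    rw [hf, IsRoot.def, eval_prod]
    exact Finset.prod_eq_zero (Finset.mem_univ i) (by simp)
  have hwd : ∀ i k, w (θ i - θ k) = ‖j (θ i) - j (θ k)‖ := by
    intro i k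
    rw [hw, map_sub]
  have hone : ∀ i k : Fin 5, i ≠ k → ¬ (i = 0 ∧ k = 1) → ¬ (i = 1 ∧ k = 0) →
      w (θ i - θ k) = 1 := by
    intro i k h h' h''
    rw [hwd]
    exact hnode.far i k h h' h''
  have h02 : θ 0 ≠ θ 2 := by
    intro h
    have h1 := hone 0 2 (by decide) (by decide) (by decide)
    rw [h, sub_self, map_zero] at h1
    exact zero_ne_one h1
  have hf5 : f = (X - C (θ 0)) * (X - C (θ 1)) * (X - C (θ 2)) * (X - C (θ 3)) *
      (X - C (θ 4)) := by
    rw [hf, Fin.prod_univ_five]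
  have hd0 : (derivative f).eval (θ 0) = (θ 0 - θ 1) * (θ 0 - θ 2) * (θ 0 - θ 3) *
      (θ 0 - θ 4) := by
    rw [hf5]
    simp [derivative_mul]
  have hd2 : (derivative f).eval (θ 2) = (θ 2 - θ 0) * (θ 2 - θ 1) * (θ 2 - θ 3) *
      (θ 2 - θ 4) := by
    rw [hf5]
    simp [derivative_mul]
  have hwd2 : w ((derivative f).eval (θ 2)) = 1 := by
    rw [hd2, map_mul, map_mul, map_mul, hone 2 0 (by decide) (by decide) (by decide),
      hone 2 1 (by decide) (by decide) (by decide), hone 2 3 (by decide) (by decide) (by decide),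
      hone 2 4 (by decide) (by decide) (by decide)]
    norm_num
  have hwd0 : w ((derivative f).eval (θ 0)) = w (θ 0 - θ 1) := by
    rw [hd0, map_mul, map_mul, map_mul, hone 0 2 (by decide) (by decide) (by decide),
      hone 0 3 (by decide) (by decide) (by decide), hone 0 4 (by decide) (by decide) (by decide)]
    simp
  have hlog01 : Real.log (w (θ 0 - θ 1)) = q / 2 := by
    have h1 : ‖η‖ = w (θ 0 - θ 1) ^ 2 := by
      rw [hη]
      unfold SZT.B.eta
      rw [norm_pow, norm_div, hnode.two, div_one, hwd]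
    rw [hq, h1, Real.log_pow]
    push_cast
    ring
  have hlogd0 : Real.log (w ((derivative f).eval (θ 0))) = q / 2 := by rw [hwd0, hlog01]
  have hlogd2 : Real.log (w ((derivative f).eval (θ 2))) = 0 := by rw [hwd2, Real.log_one]
  have hlog02 : Real.log (w (θ 0 - θ 2)) = 0 := by
    rw [hone 0 2 (by decide) (by decide) (by decide), Real.log_one]
  have hsplit : f.Splits := IsAlgClosed.splits f
  have hmum : Mum f A B := hgood.toMum
  -- `A` at the roots
  have hAne : ∀ i, A.eval (θ i) ≠ 0 := by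
    intro i h
    obtain ⟨c, d, hcd⟩ := hgood.cop
    have h1 := congrArg (eval (θ i)) hcd
    rw [eval_add, eval_mul, eval_mul, h, (hroot i : f.eval (θ i) = 0), mul_zero, mul_zero,
      add_zero, eval_one] at h1
    exact zero_ne_one h1
  obtain ⟨A', B', V, U', W', A'', B'', V', U'', W'', ⟨hT1, hG1, hGen1, hL1⟩, hT2, hG2, hGen2,
    hL2⟩ := hLVD Ω f A B U W (θ 0) (θ 2) M h2 hmon hdeg hsqf hsplit hgood (hroot 0) (hroot 2)
      h02 htau hgen
  obtain ⟨A₁, B₁, V₁, U₁, W₁, A₂, B₂, V₂, U₂, W₂, ⟨hT3, hG3, hGen3, hL3⟩, -⟩ :=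
    hLVD Ω f A B U W (θ 2) (θ 0) M h2 hmon hdeg hsqf hsplit hgood (hroot 2) (hroot 0)
      (Ne.symm h02) htau hgen
  set S := SZT.B.ss (fun k => j (θ k)) s (A.map j) (B.map j) with hS
  have hE0 := hEOM Ω L j w f θ s hw hnode hsq hmon hdeg A B U W M hgood hgen
  have hE1 := hEOM Ω L j w f θ s hw hnode hsq hmon hdeg A' B' U' W' M hG1 hGen1
  have hE2 := hEOM Ω L j w f θ s hw hnode hsq hmon hdeg A'' B'' U'' W'' M hG2 hGen2
  have hE3 := hEOM Ω L j w f θ s hw hnode hsq hmon hdeg A₁ B₁ U₁ W₁ M hG3 hGen3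
  obtain ⟨m1, hS1⟩ := hSHF Ω L j f θ s h2 hmon hdeg hsqf hnode hsq A B A' B' V 0 hmum hT1
  obtain ⟨m2, hS2⟩ := hSHF Ω L j f θ s h2 hmon hdeg hsqf hnode hsq A' B' A'' B'' V' 2 hT1.mum
    hT2
  obtain ⟨m3, hS3⟩ := hSHF Ω L j f θ s h2 hmon hdeg hsqf hnode hsq A B A₁ B₁ V₁ 2 hmum hT3
  rw [if_pos (by decide)] at hS1
  rw [if_neg (by decide)] at hS2 hS3
  rw [← hq, ← hS] at hE0
  rw [← hq, hS1, FF_add_int] at hE1
  rw [← hq, hS2, FF_add_int, add_zero, hS1, FF_add_int] at hE2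
  rw [← hq, hS3, FF_add_int, add_zero] at hE3
  rw [← hS] at hE1 hE2 hE3
  have hL1w := hL1 w
  have hL2w := hL2 w
  have hL3w := hL3 w
  rw [hlogd0] at hL1w
  rw [hlogd2] at hL3w
  rw [hlogd0, hlogd2, hlog02] at hL2w
  -- the values of `A`
  have hA0 : w (A.eval (θ 0)) ≤ Real.exp (Lv w f A U M + q * (1 / 4 - FF (S + 1 / 2))) := by
    have hpos : 0 < w (A.eval (θ 0)) := w.pos (hAne 0)
    rw [← Real.log_le_iff_le_exp hpos]
    nlinarith
  have hA2 : w (A.eval (θ 2)) ≤ Real.exp (Lv w f A U M + q * (- FF S)) := by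
    have hpos : 0 < w (A.eval (θ 2)) := w.pos (hAne 2)
    rw [← Real.log_le_iff_le_exp hpos]
    nlinarith
  have hmono : Real.exp (Lv w f A U M + q * (1 / 4 - FF (S + 1 / 2))) ≤
      Real.exp (Lv w f A U M + q * (- FF S)) := by
    apply Real.exp_le_exp.2
    have h3 := FF_le (S + 1 / 2)
    have h4 := FF_nonneg S
    nlinarith
  obtain ⟨-, hk0⟩ := hTRO Ω f A B (θ 0) (θ 2) hmon hdeg hmum hgood.two (hroot 0) (hroot 2)
  obtain ⟨-, hk2⟩ := hTRO Ω f A B (θ 2) (θ 0) hmon hdeg hmum hgood.two (hroot 2) (hroot 0)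
  have hkum0 : kum f A B 0 = 1 := rfl
  have hl : l = 0 ∨ l = 1 ∨ l = 2 ∨ l = 3 := by
    fin_cases l <;> simp
  rcases hl with rfl | rfl | rfl | rfl
  · rw [if_pos (by decide)]
    have h5 : uni (adc f (θ 0) (θ 2)) (kum f A B) 0 = 1 := rfl
    rw [h5, map_one]
    apply Real.one_le_exp
    nlinarith
  · rw [if_pos (by decide)]
    have h5 : uni (adc f (θ 0) (θ 2)) (kum f A B) 1 =
        kum f A B 1 + -(θ 0 + θ 2) * kum f A B 0 := rfl
    have h6 : A.eval (θ 2) - A.eval (θ 0) =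
        (θ 0 - θ 2) * uni (adc f (θ 0) (θ 2)) (kum f A B) 1 := by
      rw [h5, hk0, hk2, hkum0]
      ring
    have h7 : w (uni (adc f (θ 0) (θ 2)) (kum f A B) 1) = w (A.eval (θ 2) - A.eval (θ 0)) := by
      rw [h6, map_mul, hone 0 2 (by decide) (by decide) (by decide), one_mul]
    rw [h7, hw, map_sub, sub_eq_add_neg]
    refine (IsUltrametricDist.norm_add_le_max _ _).trans ?_
    rw [norm_neg, ← hw, ← hw]
    exact max_le hA2 (hA0.trans hmono)
  · rw [if_neg (by decide)]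
    have h5 : uni (adc f (θ 0) (θ 2)) (kum f A B) 2 =
        kum f A B 2 + -θ 0 * kum f A B 1 + (θ 0) ^ 2 * kum f A B 0 := rfl
    have h6 : uni (adc f (θ 0) (θ 2)) (kum f A B) 2 = A.eval (θ 0) := by
      rw [h5, hk0]
      ring
    rw [h6]
    exact hA0
  · rw [if_neg (by decide)]
    have h5 : uni (adc f (θ 0) (θ 2)) (kum f A B) 3 =
        kum f A B 3 + -(θ 0 + θ 2) * kum f A B 2 + θ 0 * θ 2 * kum f A B 1 +
          GG f (θ 0) (θ 2) * kum f A B 0 := rfl
    have h6 : uni (adc f (θ 0) (θ 2)) (kum f A B) 3 = tau f (θ 0) (θ 2) (kum f A B) := by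
      rw [h5]
      unfold tau
      ring
    rw [h6]
    have hpos : 0 < w (tau f (θ 0) (θ 2) (kum f A B)) :=
      w.pos (htau _ _ (hroot 0) (hroot 2) h02)
    rw [← Real.log_le_iff_le_exp hpos]
    nlinarith

end Pool.Agent.KDT.H5
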